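import Mathlib

/-!
# Bounded delay schedules for regular train networks

For every dimension `d` and every train length `ℓ ≥ 1` there is a constant `C` such that every
regular `d`-dimensional train network with train length `ℓ` has a schedule of delay at most `C`.

Idea: to each pair of directed axis types a modulus at least `2ℓ` is attached, all moduli being
pairwise coprime. For a train on a line of axis `i` with sign `s` and a train on a line of axis
`i' ≠ i` with sign `s'`, the first is at each possible crossing point `p` at a time congruent to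
`s p_i + s' p_{i'}` and the second at a time congruent to `s p_i + s' p_{i'} + ℓ` modulo the modulus
of the pair. For a given train all these conditions only concern its delay, and the Chinese
remainder theorem applies. Two more moduli take care of collinear tracks with a common endpoint.
-/

set_option autoImplicit false

namespace Pool.Agent.Results.MP_03ede5_co.BoundedDelay

/-- A train line: a track from the departure point `dep` to the arrival point `arr ≠ dep`, a train
length and a speed. -/
structure TrainLine (d : ℕ) where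
  /-- departure point -/
  dep : EuclideanSpace ℝ (Fin d)
  /-- arrival point -/
  arr : EuclideanSpace ℝ (Fin d)
  ne : dep ≠ arr
  /-- train length -/
  len : ℝ
  len_pos : 0 < len
  /-- speed -/
  speed : ℝ
  speed_pos : 0 < speed

/-- The track of a train line. -/
def TrainLine.track {d : ℕ} (L : TrainLine d) : Set (EuclideanSpace ℝ (Fin d)) :=
  segment ℝ L.dep L.arr

/-- A train network: the tracks are pairwise non-overlapping (two distinct lines have tracks with at
most one common point). -/
def IsNetwork {d : ℕ} (N : Set (TrainLine d)) : Prop :=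
  ∀ L ∈ N, ∀ L' ∈ N, L ≠ L' → (L.track ∩ L'.track).Subsingleton

/-- The network is regular with train length `ℓ`. -/
def IsRegular {d : ℕ} (ℓ : ℕ) (N : Set (TrainLine d)) : Prop :=
  ∀ L ∈ N, L.speed = 1 ∧ L.len = ℓ ∧ (∃ i, ∀ j, j ≠ i → L.dep j = L.arr j) ∧
    (∀ j, ∃ a : ℤ, L.dep j = a) ∧ (∀ j, ∃ a : ℤ, L.arr j = a)

/-- The time interval in which the train with delay `t` passes through the point `p` of its
track. -/
def TrainLine.passing {d : ℕ} (L : TrainLine d) (t : ℝ) (p : EuclideanSpace ℝ (Fin d)) : Set ℝ :=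
  Set.Ioo (0 + t + dist L.dep p / L.speed) (L.len / L.speed + t + dist L.dep p / L.speed)

/-- The schedule `t` is collision-free. -/
def CollisionFree {d : ℕ} (N : Set (TrainLine d)) (t : TrainLine d → ℝ) : Prop :=
  ∀ L ∈ N, ∀ L' ∈ N, L ≠ L' → ∀ p ∈ L.track, p ∈ L'.track →
    Disjoint (L.passing (t L) p) (L'.passing (t L') p)

/-! ## Moduli and the Chinese remainder theorem -/

lemma exists_moduli (J : Type) [Fintype J] (b : ℕ) : ∃ K : J → ℕ, (∀ j, b ≤ K j ∧ 0 < K j) ∧
    ∀ i j, i ≠ j → Nat.Coprime (K i) (K j) := by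
  classical
  have hinf := Nat.infinite_setOfPred_prime
  refine ⟨fun j => Nat.nth Nat.Prime ((Fintype.equivFin J j : ℕ) + b), fun j => ⟨?_, ?_⟩, ?_⟩
  · have h1 : (Fintype.equivFin J j : ℕ) + b ≤
        Nat.nth Nat.Prime ((Fintype.equivFin J j : ℕ) + b) := (Nat.nth_strictMono hinf).le_apply
    exact le_trans (by omega) h1
  · exact (Nat.prime_nth_prime _).pos
  · intro i j hij
    rw [Nat.coprime_primes (Nat.prime_nth_prime _) (Nat.prime_nth_prime _)]
    intro h
    have h1 := Nat.nth_injective hinf h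
    have h2 : (Fintype.equivFin J i : ℕ) = Fintype.equivFin J j := by omega
    exact hij ((Fintype.equivFin J).injective (Fin.ext h2))

lemma crt {J : Type} [Fintype J] (K : J → ℕ) (hK : ∀ j, 0 < K j)
    (hcop : ∀ i j, i ≠ j → Nat.Coprime (K i) (K j)) (ρ : J → ℤ) :
    ∃ t : ℕ, t < ∏ j, K j ∧ ∀ j, (t : ℤ) ≡ ρ j [ZMOD K j] := by
  classical
  let a : J → ℕ := fun j => (ρ j % K j).toNat
  have hs : ∀ i ∈ (Finset.univ : Finset J), K i ≠ 0 := fun i _ => (hK i).ne'
  have pp : Set.Pairwise ((Finset.univ : Finset J) : Set J) (Function.onFun Nat.Coprime K) :=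
    fun i _ j _ hij => hcop i j hij
  obtain ⟨t, ht⟩ : ∃ t : ℕ, t < ∏ j, K j ∧ ∀ i ∈ (Finset.univ : Finset J), t ≡ a i [MOD K i] :=
    ⟨_, Nat.chineseRemainderOfFinset_lt_prod a K hs pp,
      (Nat.chineseRemainderOfFinset a K Finset.univ hs pp).2⟩
  refine ⟨t, ht.1, fun j => ?_⟩
  have h1 := (Int.natCast_modEq_iff.2 (ht.2 j (Finset.mem_univ j)))
  have h2 : ((a j : ℕ) : ℤ) = ρ j % K j :=
    Int.toNat_of_nonneg (Int.emod_nonneg _ (by have := hK j; omega))
  rw [h2] at h1
  exact h1.trans (Int.mod_modEq _ _)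

/-! ## Colouring the integer points of a line -/

lemma exists_count (S : Set ℤ) : ∃ N : ℤ → ℤ, ∀ p, (p ∈ S → N (p + 1) = N p + 1) ∧
    (p ∉ S → N (p + 1) = N p) := by
  classical
  let ind : ℤ → ℤ := fun q => if q ∈ S then 1 else 0
  refine ⟨fun p => ∑ q ∈ Finset.Ico 0 p, ind q - ∑ q ∈ Finset.Ico p 0, ind q, fun p => ?_⟩
  have key : (∑ q ∈ Finset.Ico 0 (p + 1), ind q - ∑ q ∈ Finset.Ico (p + 1) 0, ind q) =
      (∑ q ∈ Finset.Ico 0 p, ind q - ∑ q ∈ Finset.Ico p 0, ind q) + ind p := by
    rcases lt_or_ge p 0 with hp | hp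
    · have h1 : Finset.Ico (0 : ℤ) (p + 1) = ∅ := Finset.Ico_eq_empty (by omega)
      have h2 : Finset.Ico (0 : ℤ) p = ∅ := Finset.Ico_eq_empty (by omega)
      have h3 : Finset.Ico p 0 = insert p (Finset.Ico (p + 1) 0) := by
        ext q
        simp only [Finset.mem_Ico, Finset.mem_insert]
        omega
      rw [h1, h2, h3, Finset.sum_insert (by simp)]
      ring
    · have h1 : Finset.Ico (p + 1) (0 : ℤ) = ∅ := Finset.Ico_eq_empty (by omega)
      have h2 : Finset.Ico p (0 : ℤ) = ∅ := Finset.Ico_eq_empty (by omega)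
      have h3 : Finset.Ico 0 (p + 1) = insert p (Finset.Ico 0 p) := by
        ext q
        simp only [Finset.mem_Ico, Finset.mem_insert]
        omega
      rw [h1, h2, h3, Finset.sum_insert (by simp)]
      ring
  constructor
  · intro h
    simp only
    rw [key]
    simp [ind, h]
  · intro h
    simp only
    rw [key]
    simp [ind, h]

/-- If the intervals in `T` do not overlap, the integers can be coloured with two colours such that
the endpoints of each interval have different colours. -/
lemma exists_colour (T : Set (ℤ × ℤ)) (hlt : ∀ x ∈ T, x.1 < x.2)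
    (hT : ∀ x ∈ T, ∀ y ∈ T, x.1 < y.1 → x.2 ≤ y.1) :
    ∃ c : ℤ → Bool, ∀ x ∈ T, c x.1 ≠ c x.2 := by
  obtain ⟨N, hN⟩ := exists_count {l | ∃ x ∈ T, x.1 = l}
  refine ⟨fun p => decide (N p % 2 = 0), fun x hx => ?_⟩
  have h1 : ∀ k : ℕ, x.1 + 1 + k ≤ x.2 → N (x.1 + 1 + k) = N x.1 + 1 := by
    intro k
    induction k with
    | zero =>
      intro _
      simp only [Nat.cast_zero, add_zero]
      exact (hN x.1).1 ⟨x, hx, rfl⟩
    | succ k ih =>
      intro hk
      push_cast at hk
      have h2 := (hN (x.1 + 1 + k)).2 (by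
        rintro ⟨y, hy, hy1⟩
        have := hT x hx y hy (by omega)
        omega)
      have h3 : x.1 + 1 + ((k + 1 : ℕ) : ℤ) = x.1 + 1 + k + 1 := by push_cast; ring
      rw [h3, h2]
      exact ih (by omega)
  have h2 := h1 (x.2 - x.1 - 1).toNat (by have := hlt x hx; omega)
  have h3 : x.1 + 1 + ((x.2 - x.1 - 1).toNat : ℤ) = x.2 := by have := hlt x hx; omega
  rw [h3] at h2
  change decide (N x.1 % 2 = 0) ≠ decide (N x.2 % 2 = 0)
  rw [h2]
  intro h
  rw [decide_eq_decide] at h
  omega

/-! ## Regular networks -/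

/-- The sign of a direction. -/
def sg (b : Bool) : ℤ := if b then 1 else -1

/-- The integer data of a regular train line: axis `i`, departure point `D`, arrival coordinate
`e`. -/
structure HasData {d : ℕ} (L : TrainLine d) (i : Fin d) (D : Fin d → ℤ) (e : ℤ) : Prop where
  dep : ∀ j, L.dep j = D j
  arr : ∀ j, j ≠ i → L.arr j = D j
  arr_i : L.arr i = e
  ne : D i ≠ e

lemma exists_data {d ℓ : ℕ} {N : Set (TrainLine d)} (hreg : IsRegular ℓ N) (L : N) :
    ∃ (i : Fin d) (D : Fin d → ℤ) (e : ℤ), HasData L.1 i D e := by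
  obtain ⟨-, -, ⟨i, hi⟩, hdep, harr⟩ := hreg L.1 L.2
  choose D hD using hdep
  choose A hA using harr
  refine ⟨i, D, A i, hD, fun j hj => ?_, hA i, ?_⟩
  · rw [← hi j hj, hD]
  · intro h
    apply L.1.ne
    ext j
    by_cases hj : j = i
    · subst hj
      rw [hD, hA, h]
    · exact hi j hj

/-- The smaller endpoint. -/
def lo {d : ℕ} (i : Fin d) (D : Fin d → ℤ) (e : ℤ) : ℤ := min (D i) e
/-- The larger endpoint. -/
def hi {d : ℕ} (i : Fin d) (D : Fin d → ℤ) (e : ℤ) : ℤ := max (D i) e

lemma lo_lt_hi {d : ℕ} {L : TrainLine d} {i : Fin d} {D : Fin d → ℤ} {e : ℤ}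
    (h : HasData L i D e) : lo i D e < hi i D e := by
  have := h.ne
  unfold lo hi
  omega

lemma mem_track {d : ℕ} {L : TrainLine d} {i : Fin d} {D : Fin d → ℤ} {e : ℤ}
    (h : HasData L i D e) (p : EuclideanSpace ℝ (Fin d)) :
    p ∈ L.track ↔ (∀ j, j ≠ i → p j = D j) ∧ (lo i D e : ℝ) ≤ p i ∧ p i ≤ (hi i D e : ℝ) := by
  have hlo : ((lo i D e : ℤ) : ℝ) = min (D i : ℝ) e := by unfold lo; push_cast; rfl
  have hhi : ((hi i D e : ℤ) : ℝ) = max (D i : ℝ) e := by unfold hi; push_cast; rfl
  constructor
  · rintro ⟨a, b, ha, hb, hab, rfl⟩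
    refine ⟨fun j hj => ?_, ?_, ?_⟩
    · simp only [PiLp.add_apply, PiLp.smul_apply, smul_eq_mul]
      rw [h.dep j, h.arr j hj, ← add_mul, hab, one_mul]
    · simp only [PiLp.add_apply, PiLp.smul_apply, smul_eq_mul]
      rw [h.dep i, h.arr_i, hlo]
      have h1 : min (D i : ℝ) e ≤ D i := min_le_left _ _
      have h2 : min (D i : ℝ) e ≤ e := min_le_right _ _
      calc min (D i : ℝ) e = a * min (D i : ℝ) e + b * min (D i : ℝ) e := by
            rw [← add_mul, hab, one_mul]
        _ ≤ a * D i + b * e :=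
            add_le_add (mul_le_mul_of_nonneg_left h1 ha) (mul_le_mul_of_nonneg_left h2 hb)
    · simp only [PiLp.add_apply, PiLp.smul_apply, smul_eq_mul]
      rw [h.dep i, h.arr_i, hhi]
      have h1 : (D i : ℝ) ≤ max (D i : ℝ) e := le_max_left _ _
      have h2 : (e : ℝ) ≤ max (D i : ℝ) e := le_max_right _ _
      calc a * (D i : ℝ) + b * e ≤ a * max (D i : ℝ) e + b * max (D i : ℝ) e :=
            add_le_add (mul_le_mul_of_nonneg_left h1 ha) (mul_le_mul_of_nonneg_left h2 hb)
        _ = _ := by rw [← add_mul, hab, one_mul]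
  · rintro ⟨h1, h2, h3⟩
    rw [hlo] at h2
    rw [hhi] at h3
    have hne : (e : ℝ) - D i ≠ 0 := by
      intro hc
      apply h.ne
      have : (D i : ℝ) = e := by linarith
      exact_mod_cast this
    set b : ℝ := (p i - D i) / (e - D i) with hb
    have hbe : b * (e - D i) = p i - D i := div_mul_cancel₀ _ hne
    have hb01 : 0 ≤ b ∧ b ≤ 1 := by
      rcases lt_or_gt_of_ne hne with hlt | hgt
      · have hle : (e : ℝ) ≤ D i := by linarith
        rw [min_eq_right hle] at h2
        rw [max_eq_left hle] at h3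
        constructor
        · exact div_nonneg_of_nonpos (by linarith) hlt.le
        · rw [hb, div_le_one_of_neg hlt]
          linarith
      · have hle : (D i : ℝ) ≤ e := by linarith
        rw [min_eq_left hle] at h2
        rw [max_eq_right hle] at h3
        constructor
        · exact div_nonneg (by linarith) hgt.le
        · rw [hb, div_le_one hgt]
          linarith
    refine ⟨1 - b, b, by linarith [hb01.2], hb01.1, by ring, ?_⟩
    ext j
    simp only [PiLp.add_apply, PiLp.smul_apply, smul_eq_mul]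
    by_cases hj : j = i
    · subst hj
      rw [h.dep, h.arr_i]
      linarith
    · rw [h.dep, h.arr j hj, h1 j hj]
      ring

/-- The time needed to reach the point `p` of the track. -/
lemma dist_track {d : ℕ} {L : TrainLine d} {i : Fin d} {D : Fin d → ℤ} {e : ℤ}
    (h : HasData L i D e) {p : EuclideanSpace ℝ (Fin d)} (hp : p ∈ L.track) :
    dist L.dep p = (sg (decide (D i < e)) : ℝ) * (p i - D i) := by
  classical
  obtain ⟨h1, h2, h3⟩ := (mem_track h p).1 hp
  have h4 : dist L.dep p = |p i - D i| := by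
    rw [EuclideanSpace.dist_eq, Finset.sum_eq_single i]
    · rw [Real.sqrt_sq dist_nonneg, Real.dist_eq, h.dep, abs_sub_comm]
    · intro j _ hj
      rw [h.dep j, h1 j hj, dist_self]
      norm_num
    · intro hi'
      exact absurd (Finset.mem_univ _) hi'
  rw [h4]
  by_cases hlt : D i < e
  · have h5 : lo i D e = D i := by unfold lo; omega
    rw [h5] at h2
    rw [abs_of_nonneg (by linarith)]
    simp [sg, hlt]
  · have h5 : hi i D e = D i := by unfold hi; omega
    rw [h5] at h3
    rw [abs_of_nonpos (by linarith)]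
    simp [sg, hlt]

lemma modEq_of_eq {n a b : ℤ} (h : a = b) : a ≡ b [ZMOD n] := by
  rw [h]

lemma sep {T T' : ℤ} {k ℓ : ℕ} (hk : 2 * ℓ ≤ k) (h : T' ≡ T + ℓ [ZMOD k]) :
    T + ℓ ≤ T' ∨ T' + ℓ ≤ T := by
  obtain ⟨q, hq⟩ := h.symm.dvd
  rcases lt_or_ge q 0 with h1 | h1
  · right
    have h2 : (k : ℤ) * q ≤ k * (-1) := mul_le_mul_of_nonneg_left (by omega) (by omega)
    have h3 : (2 * ℓ : ℤ) ≤ k := by exact_mod_cast hk
    linarith
  · left
    have h2 : 0 ≤ (k : ℤ) * q := mul_nonneg (by omega) h1
    linarith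

lemma disj {x y l : ℝ} (h : x + l ≤ y ∨ y + l ≤ x) : Disjoint (Set.Ioo x (x + l)) (Set.Ioo y (y + l)) := by
  rw [Set.disjoint_left]
  rintro z ⟨h1, h2⟩ ⟨h3, h4⟩
  rcases h with h | h <;> linarith

/-- **Main theorem.** For every dimension `d` and every `ℓ ≥ 1` there is a constant `C` such that
every regular `d`-dimensional train network with train length `ℓ` has a (collision-free) schedule
all of whose delays are at most `C`. -/
theorem result : ∀ d ℓ : ℕ, 1 ≤ ℓ → ∃ C : ℝ, ∀ N : Set (TrainLine d), IsNetwork N →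
    IsRegular ℓ N → ∃ t : TrainLine d → ℝ, (∀ L ∈ N, 0 ≤ t L ∧ t L ≤ C) ∧ CollisionFree N t := by
  classical
  intro d ℓ hℓ
  obtain ⟨K, hK, hcop⟩ := exists_moduli (((Fin d × Bool) × (Fin d × Bool)) ⊕ Bool) (2 * ℓ)
  refine ⟨((∏ j, K j : ℕ) : ℝ), fun N hN hreg => ?_⟩
  choose ax D e hdat using exists_data (d := d) hreg
  -- the type of a line, the line that carries the track
  let b : N → Bool := fun L => decide (D L (ax L) < e L)
  let key : N → Fin d × (Fin d → ℤ) := fun L => (ax L, Function.update (D L) (ax L) 0)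
  let l : N → ℤ := fun L => lo (ax L) (D L) (e L)
  let r : N → ℤ := fun L => hi (ax L) (D L) (e L)
  have hlr : ∀ L : N, l L < r L := fun L => lo_lt_hi (hdat L)
  -- collinear tracks do not overlap
  have hover : ∀ L L' : N, key L = key L' → L ≠ L' → ¬ (l L ≤ l L' ∧ l L' < r L) := by
    rintro L L' hkey hne ⟨h1, h2⟩
    have hax : ax L = ax L' := congrArg Prod.fst hkey
    have hD : ∀ j, j ≠ ax L → D L j = D L' j := by
      intro j hj
      have h3 : Function.update (D L) (ax L) 0 j = Function.update (D L') (ax L') 0 j :=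
        congrFun (congrArg Prod.snd hkey) j
      rwa [Function.update_of_ne hj, Function.update_of_ne (hax ▸ hj)] at h3
    have hpt : ∀ z : ℤ, l L' ≤ z → z ≤ r L → z ≤ r L' →
        (WithLp.toLp 2 (fun j => if j = ax L then (z : ℝ) else D L j) : EuclideanSpace ℝ (Fin d)) ∈
          L.1.track ∩ L'.1.track := by
      intro z hz1 hz2 hz3
      constructor
      · rw [mem_track (hdat L)]
        refine ⟨fun j hj => by simp [hj], ?_, ?_⟩
        · simp only [if_true]
          exact_mod_cast h1.trans hz1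
        · simp only [if_true]
          exact_mod_cast hz2
      · rw [mem_track (hdat L'), ← hax]
        refine ⟨fun j hj => by simp [hj, hD j hj], ?_, ?_⟩
        · simp only [if_true, hax]
          exact_mod_cast hz1
        · simp only [if_true, hax]
          exact_mod_cast hz3
    have h3 := hN L.1 L.2 L'.1 L'.2 (fun hc => hne (Subtype.ext hc))
      (hpt (l L') le_rfl h2.le (hlr L').le) (hpt (l L' + 1) (by omega) (by omega) (hlr L'))
    have h4 := congrArg (fun p : EuclideanSpace ℝ (Fin d) => p (ax L)) h3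
    simp at h4
  -- the colourings
  have hcol : ∀ κ : Fin d × (Fin d → ℤ), ∃ c : ℤ → Bool, ∀ L : N, key L = κ → c (l L) ≠ c (r L) := by
    intro κ
    obtain ⟨c, hc⟩ := exists_colour {x | ∃ L : N, key L = κ ∧ x = (l L, r L)}
      (by rintro _ ⟨L, -, rfl⟩; exact hlr L)
      (by
        rintro _ ⟨L, hL, rfl⟩ _ ⟨L', hL', rfl⟩ hlt
        simp only at hlt ⊢
        by_contra hcon
        have hne : L ≠ L' := by rintro rfl; exact lt_irrefl _ hlt
        exact hover L L' (hL.trans hL'.symm) hne ⟨hlt.le, not_le.1 hcon⟩)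
    exact ⟨c, fun L hL => hc _ ⟨L, hL, rfl⟩⟩
  choose c hc using hcol
  -- the residues
  let ρ : N → (((Fin d × Bool) × (Fin d × Bool)) ⊕ Bool) → ℤ := fun L j =>
    match j with
    | Sum.inl (τ, τ') => sg τ.2 * D L τ.1 + sg τ'.2 * D L τ'.1 + (if τ = (ax L, b L) then 0 else ℓ)
    | Sum.inr β => if β = c (key L) (l L) then ℓ - sg (b L) * (l L - D L (ax L))
        else - sg (b L) * (r L - D L (ax L))
  choose t ht1 ht2 using fun L : N => crt K (fun j => (hK j).2) hcop (ρ L)
  refine ⟨fun L => if h : L ∈ N then (t ⟨L, h⟩ : ℝ) else 0, ?_, ?_⟩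
  · intro L hL
    simp only [hL, dif_pos]
    exact ⟨Nat.cast_nonneg _, by exact_mod_cast (ht1 ⟨L, hL⟩).le⟩
  -- the times
  let time : N → ℤ → ℤ := fun L P => t L + sg (b L) * (P - D L (ax L))
  have hpass : ∀ (L : N) (p : EuclideanSpace ℝ (Fin d)) (P : ℤ), p ∈ L.1.track → p (ax L) = P →
      L.1.passing (if h : L.1 ∈ N then (t ⟨L.1, h⟩ : ℝ) else 0) p =
        Set.Ioo (time L P : ℝ) ((time L P : ℝ) + ℓ) := by
    intro L p P hp hP
    obtain ⟨hs, hl, -⟩ := hreg L.1 L.2
    unfold TrainLine.passing
    rw [dif_pos L.2, hs, hl, dist_track (hdat L) hp, hP]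
    simp only [time, b]
    push_cast
    congr 1 <;> ring
  -- any two trains
  have main : ∀ L L' : N, L ≠ L' → ∀ p ∈ L.1.track, p ∈ L'.1.track →
      (ax L < ax L' ∨ (ax L = ax L' ∧ l L ≤ l L')) →
      Disjoint (L.1.passing (if h : L.1 ∈ N then (t ⟨L.1, h⟩ : ℝ) else 0) p)
        (L'.1.passing (if h : L'.1 ∈ N then (t ⟨L'.1, h⟩ : ℝ) else 0) p) := by
    intro L L' hne p hp hp' hord
    obtain ⟨h1, h2, h3⟩ := (mem_track (hdat L) p).1 hp
    obtain ⟨h1', h2', h3'⟩ := (mem_track (hdat L') p).1 hp'
    rcases hord with hord | ⟨hax, hord⟩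
    · -- different axes
      have hP : p (ax L) = (D L' (ax L) : ℤ) := h1' _ hord.ne
      have hP' : p (ax L') = (D L (ax L') : ℤ) := h1 _ hord.ne'
      rw [hpass L p _ hp hP, hpass L' p _ hp' hP']
      apply disj
      have e1 := ht2 L (Sum.inl ((ax L, b L), (ax L', b L')))
      have e2 := ht2 L' (Sum.inl ((ax L, b L), (ax L', b L')))
      have hne' : ((ax L, b L) : Fin d × Bool) ≠ (ax L', b L') := fun hc =>
        hord.ne (congrArg Prod.fst hc)
      simp only [ρ, if_true, hne', if_false] at e1 e2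
      have e3 : time L' (D L (ax L')) ≡ time L (D L' (ax L)) + ℓ
          [ZMOD K (Sum.inl ((ax L, b L), (ax L', b L')))] := by
        simp only [time]
        have e4 := e1.add_right (sg (b L) * (D L' (ax L) - D L (ax L)) + ℓ)
        have e5 := e2.add_right (sg (b L') * (D L (ax L') - D L' (ax L')))
        refine (e5.trans ?_).trans (e4.symm.trans ?_)
        · apply modEq_of_eq
          ring
        · apply modEq_of_eq
          ring
      rcases sep (hK _).1 e3 with h | h
      · left; exact_mod_cast h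
      · right; exact_mod_cast h
    · -- the same axis
      have hkey : key L = key L' := by
        simp only [key]
        rw [hax]
        congr 1
        funext j
        by_cases hj : j = ax L'
        · rw [hj, Function.update_self, Function.update_self]
        · rw [Function.update_of_ne hj, Function.update_of_ne hj]
          have a := h1 j (hax ▸ hj)
          have a' := h1' j hj
          rw [a] at a'
          exact Int.cast_injective (α := ℝ) a'
      have hrl : r L ≤ l L' := by
        by_contra hcon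
        exact hover L L' hkey hne ⟨hord, not_le.1 hcon⟩
      have hrl' : (r L : ℝ) ≤ l L' := by exact_mod_cast hrl
      rw [← hax] at h2' h3'
      have hPr : p (ax L) = (r L : ℤ) := by
        have a1 : (l L' : ℝ) ≤ p (ax L) := by
          simp only [l]
          rw [← hax]
          exact h2'
        exact le_antisymm h3 (hrl'.trans a1)
      have hrl2 : r L = l L' := by
        have a1 : (l L' : ℝ) ≤ p (ax L) := by
          simp only [l]
          rw [← hax]
          exact h2'
        rw [hPr] at a1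
        have a2 : l L' ≤ r L := by exact_mod_cast a1
        omega
      have hPr' : p (ax L') = (r L : ℤ) := by rw [← hax]; exact hPr
      rw [hpass L p _ hp hPr, hpass L' p _ hp' hPr']
      apply disj
      have e1 := ht2 L (Sum.inr (c (key L) (r L)))
      have e2 := ht2 L' (Sum.inr (c (key L) (r L)))
      have hcc : c (key L) (r L) ≠ c (key L) (l L) := (hc (key L) L rfl).symm
      simp only [ρ, hcc, if_false] at e1
      simp only [ρ, ← hkey, ← hrl2, if_true] at e2
      have e3 : time L' (r L) ≡ time L (r L) + ℓ [ZMOD K (Sum.inr (c (key L) (r L)))] := by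
        simp only [time]
        have e4 := e1.add_right (sg (b L) * (r L - D L (ax L)) + ℓ)
        have e5 := e2.add_right (sg (b L') * (r L - D L' (ax L')))
        refine (e5.trans ?_).trans (e4.symm.trans ?_)
        · apply modEq_of_eq
          ring
        · apply modEq_of_eq
          ring
      rcases sep (hK _).1 e3 with h | h
      · left; exact_mod_cast h
      · right; exact_mod_cast h
  intro L hL L' hL' hne p hp hp'
  have hne' : (⟨L, hL⟩ : N) ≠ ⟨L', hL'⟩ := fun hc => hne (congrArg Subtype.val hc)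
  rcases lt_trichotomy (ax ⟨L, hL⟩) (ax ⟨L', hL'⟩) with h | h | h
  · exact main ⟨L, hL⟩ ⟨L', hL'⟩ hne' p hp hp' (Or.inl h)
  · rcases le_total (l ⟨L, hL⟩) (l ⟨L', hL'⟩) with h' | h'
    · exact main ⟨L, hL⟩ ⟨L', hL'⟩ hne' p hp hp' (Or.inr ⟨h, h'⟩)
    · exact (main ⟨L', hL'⟩ ⟨L, hL⟩ hne'.symm p hp' hp (Or.inr ⟨h.symm, h'⟩)).symm
  · exact (main ⟨L', hL'⟩ ⟨L, hL⟩ hne'.symm p hp' hp (Or.inl h)).symm

end Pool.Agent.Results.MP_03ede5_co.BoundedDelay
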